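import Mathlib

/-!
# Elementary inequalities for the backward heat flow near the line
-/

set_option autoImplicit false

namespace Pool.Agent.H974.HD

open Complex MeasureTheory Set Filter Topology

/-- multiplication by `μ` -/
theorem mul_sq_div {μ : ℝ} (hμ : 0 < μ) (v c : ℝ) (hc : 0 < c) :
    μ * (v ^ 2 / (c * μ)) = v ^ 2 / c := by
  field_simp

/-- the linear term -/
theorem lin_term {C μ a : ℝ} (hμ : 0 < μ) (hμ1 : μ ≤ 1) :
    μ * (2 * C * a) ≤ 100 * C ^ 2 * μ + a ^ 2 / 100 := by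
  have h1 : μ * (2 * C * a) ≤ 100 * C ^ 2 * μ ^ 2 + a ^ 2 / 100 := by
    nlinarith [sq_nonneg (10 * C * μ - a / 10)]
  have h2 : C ^ 2 * μ ^ 2 ≤ C ^ 2 * μ := by
    apply mul_le_mul_of_nonneg_left _ (sq_nonneg C)
    nlinarith
  linarith

/-- exponent near the point -/
theorem expo_near {C ρ L μ v : ℝ} (hμ : 0 < μ) (hμ1 : μ ≤ 1) :
    -(ρ ^ 2 * (μ * L ^ 2)) + 2 * C * |v| - v ^ 2 / (4 * μ) ≤
      100 * C ^ 2 - 3 / 100 * (ρ ^ 2 * (μ * L ^ 2)) - v ^ 2 / (16 * μ) := by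
  apply le_of_mul_le_mul_left _ hμ
  have h1 := lin_term (C := C) (a := |v|) hμ hμ1
  rw [sq_abs] at h1
  have h2 := mul_sq_div hμ v 4 (by norm_num)
  have h3 := mul_sq_div hμ v 16 (by norm_num)
  have h4 : 0 ≤ μ * (ρ ^ 2 * (μ * L ^ 2)) := by positivity
  have h5 : 0 ≤ v ^ 2 := sq_nonneg v
  rw [mul_sub, mul_sub, mul_add, mul_sub, h2, h3]
  nlinarith

/-- exponent far from the point -/
theorem expo_far {C Kc ρ L μ y t v : ℝ} (hμ : 0 < μ) (hμ1 : μ ≤ 1) (hρ : 0 < ρ) (hρ4 : ρ ≤ 1 / 4)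
    (hL : 0 < L) (hK : 0 < Kc) (hδ : 400 * Kc * (μ * L) ≤ 1) (hy : |y - t| ≤ ρ / 2 * (μ * L))
    (hv : ρ / 2 * (μ * L) ≤ |v|) :
    ρ ^ 2 / 1000 * (μ * L ^ 2 + L * |y + v - t|) + Kc * L * (y + v - t) ^ 2 + 2 * C * |v| -
      v ^ 2 / (4 * μ) ≤
      100 * C ^ 2 - 3 / 100 * (ρ ^ 2 * (μ * L ^ 2)) - v ^ 2 / (16 * μ) := by
  apply le_of_mul_le_mul_left _ hμ
  have h1 := lin_term (C := C) (a := |v|) hμ hμ1
  have h2 := mul_sq_div hμ v 4 (by norm_num)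
  have h3 := mul_sq_div hμ v 16 (by norm_num)
  have hw : |y + v - t| ≤ 2 * |v| := by
    have : y + v - t = (y - t) + v := by ring
    rw [this]
    exact (abs_add_le _ _).trans (by linarith)
  have hw2 : (y + v - t) ^ 2 ≤ 4 * |v| ^ 2 := by
    rw [← sq_abs (y + v - t)]
    have := mul_self_le_mul_self (abs_nonneg _) hw
    nlinarith
  have ha : 0 ≤ |v| := abs_nonneg v
  -- the term with `η`
  have h4 : μ * (ρ ^ 2 / 1000 * (L * |y + v - t|)) ≤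
      100 * (ρ ^ 2 / 1000) ^ 2 * (μ * L) ^ 2 + |v| ^ 2 / 100 := by
    have h5 : μ * (ρ ^ 2 / 1000 * (L * |y + v - t|)) ≤ (ρ ^ 2 / 1000) * (μ * L) * (2 * |v|) := by
      have h6 : 0 ≤ (ρ ^ 2 / 1000) * (μ * L) := by positivity
      calc μ * (ρ ^ 2 / 1000 * (L * |y + v - t|)) = (ρ ^ 2 / 1000) * (μ * L) * |y + v - t| := by ring
        _ ≤ _ := mul_le_mul_of_nonneg_left hw h6
    nlinarith [sq_nonneg (10 * ((ρ ^ 2 / 1000) * (μ * L)) - |v| / 10)]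
  -- the quadratic term
  have h7 : μ * (Kc * L * (y + v - t) ^ 2) ≤ |v| ^ 2 / 100 := by
    have h8 : 0 ≤ Kc * (μ * L) := by positivity
    calc μ * (Kc * L * (y + v - t) ^ 2) = Kc * (μ * L) * (y + v - t) ^ 2 := by ring
      _ ≤ Kc * (μ * L) * (4 * |v| ^ 2) := mul_le_mul_of_nonneg_left hw2 h8
      _ = (400 * Kc * (μ * L)) * (|v| ^ 2 / 100) := by ring
      _ ≤ 1 * (|v| ^ 2 / 100) := mul_le_mul_of_nonneg_right hδ (by positivity)
      _ = _ := one_mul _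
  -- the lower bound for `v`
  have h9 : ρ ^ 2 / 4 * (μ * L) ^ 2 ≤ |v| ^ 2 := by
    have h10 : 0 ≤ ρ / 2 * (μ * L) := by positivity
    have := mul_self_le_mul_self h10 hv
    nlinarith
  have h11 : (ρ ^ 2 / 1000) ^ 2 ≤ ρ ^ 2 / 1000 * (1 / 16000) := by
    have : ρ ^ 2 ≤ 1 / 16 := by nlinarith
    have h12 : 0 ≤ ρ ^ 2 / 1000 := by positivity
    rw [sq (ρ ^ 2 / 1000)]
    apply mul_le_mul_of_nonneg_left _ h12
    linarith
  have h13 : (ρ ^ 2 / 1000) ^ 2 * (μ * L) ^ 2 ≤ ρ ^ 2 / 1000 * (1 / 16000) * (μ * L) ^ 2 :=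
    mul_le_mul_of_nonneg_right h11 (sq_nonneg _)
  have h14 : μ * (ρ ^ 2 / 1000 * (μ * L ^ 2)) = ρ ^ 2 * (μ * L) ^ 2 / 1000 := by ring
  have h15 : μ * (3 / 100 * (ρ ^ 2 * (μ * L ^ 2))) = 3 / 100 * (ρ ^ 2 * (μ * L) ^ 2) := by ring
  have h16 : v ^ 2 = |v| ^ 2 := (sq_abs v).symm
  rw [mul_sub, mul_sub, mul_add, mul_add, mul_sub, mul_add (ρ ^ 2 / 1000), mul_add μ, h2, h3, h14,
    h15, h16]
  have h17 : 0 ≤ ρ ^ 2 * (μ * L) ^ 2 := by positivity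
  generalize ρ ^ 2 * (μ * L) ^ 2 = X at *
  generalize hq : |v| ^ 2 = q at *
  nlinarith

/-- the frequency -/
theorem freq {C ε L μ x : ℝ} (hμ : 0 < μ) (hμ1 : μ ≤ 1) (hx : |x| ≤ 2 * ε * L + C) :
    2 * μ * x ^ 2 ≤ 9 * ε ^ 2 * (μ * L ^ 2) + 18 * C ^ 2 := by
  have h1 : x ^ 2 ≤ (2 * ε * L + C) ^ 2 := by
    rw [← sq_abs x]
    have := mul_self_le_mul_self (abs_nonneg _) hx
    nlinarith
  have h2 : (2 * ε * L + C) ^ 2 ≤ 9 / 2 * ε ^ 2 * L ^ 2 + 9 * C ^ 2 := by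
    nlinarith [sq_nonneg (ε * L - 4 * C)]
  have h3 : 2 * μ * x ^ 2 ≤ 2 * μ * (9 / 2 * ε ^ 2 * L ^ 2 + 9 * C ^ 2) :=
    mul_le_mul_of_nonneg_left (h1.trans h2) (by positivity)
  have h4 : 18 * C ^ 2 * μ ≤ 18 * C ^ 2 * 1 := mul_le_mul_of_nonneg_left hμ1 (by positivity)
  nlinarith

/-- the Gaussian integral -/
theorem gauss {μ : ℝ} (hμ : 0 < μ) :
    ∫ v : ℝ, Real.exp (-(v ^ 2 / (16 * μ))) = 4 * Real.sqrt Real.pi * Real.sqrt μ := by
  have h1 := integral_gaussian (1 / (16 * μ))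
  have h2 : (fun v : ℝ => Real.exp (-(v ^ 2 / (16 * μ)))) =
      fun v : ℝ => Real.exp (-(1 / (16 * μ)) * v ^ 2) := by
    funext v
    congr 1
    ring
  rw [h2, h1]
  have h3 : Real.pi / (1 / (16 * μ)) = (4 : ℝ) ^ 2 * (Real.pi * μ) := by
    rw [div_div_eq_mul_div, div_one]
    ring
  rw [h3, Real.sqrt_mul (by positivity), Real.sqrt_sq (by norm_num),
    Real.sqrt_mul Real.pi_pos.le]
  ring

theorem gauss_int {μ : ℝ} (hμ : 0 < μ) :
    Integrable fun v : ℝ => Real.exp (-(v ^ 2 / (16 * μ))) := by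
  have h1 := integrable_exp_neg_mul_sq (b := 1 / (16 * μ)) (by positivity)
  refine h1.congr (Eventually.of_forall fun v => ?_)
  show Real.exp (-(1 / (16 * μ)) * v ^ 2) = Real.exp (-(v ^ 2 / (16 * μ)))
  congr 1
  ring

/-- the Gaussian average of the backward heat flow -/
theorem J_bound {C Kc ρ L μ y t g ω : ℝ} (H : ℂ → ℂ) (hμ : 0 < μ) (hμ1 : μ ≤ 1) (hρ : 0 < ρ)
    (hρ4 : ρ ≤ 1 / 4) (hL : 0 < L) (hK : 0 < Kc) (hδ : 400 * Kc * (μ * L) ≤ 1)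
    (hy : |y - t| ≤ ρ / 2 * (μ * L)) (hω : |ω| ≤ C) (hg : 0 < g)
    (h1 : ∀ z : ℂ, ‖z - (t : ℂ) * I‖ ≤ ρ * (μ * L) →
      ‖H z‖ < g * Real.exp (-(ρ ^ 2 * (μ * L ^ 2))))
    (h2 : ∀ y : ℝ, ‖H ((y : ℂ) * I)‖ ≤ g * Real.exp (ρ ^ 2 / 1000 * (μ * L ^ 2 + L * |y - t|) +
      Kc * L * (y - t) ^ 2)) :
    ∫ v : ℝ, ‖H (((y + v : ℝ) : ℂ) * I)‖ * Real.exp (2 * ω * v) * Real.exp (-v ^ 2 / (4 * μ)) ≤
      g * Real.exp (100 * C ^ 2 - 3 / 100 * (ρ ^ 2 * (μ * L ^ 2))) *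
        (4 * Real.sqrt Real.pi * Real.sqrt μ) := by
  rw [← gauss hμ, ← integral_const_mul]
  refine integral_mono_of_nonneg (Eventually.of_forall fun v => by positivity)
    ((gauss_int hμ).const_mul _) (Eventually.of_forall fun v => ?_)
  show ‖H (((y + v : ℝ) : ℂ) * I)‖ * Real.exp (2 * ω * v) * Real.exp (-v ^ 2 / (4 * μ)) ≤
    g * Real.exp (100 * C ^ 2 - 3 / 100 * (ρ ^ 2 * (μ * L ^ 2))) * Real.exp (-(v ^ 2 / (16 * μ)))
  have h3 : Real.exp (2 * ω * v) ≤ Real.exp (2 * C * |v|) := by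
    apply Real.exp_le_exp.2
    calc 2 * ω * v ≤ |2 * ω * v| := le_abs_self _
      _ = 2 * |ω| * |v| := by rw [abs_mul, abs_mul, abs_two]
      _ ≤ 2 * C * |v| := by
          apply mul_le_mul_of_nonneg_right _ (abs_nonneg v)
          linarith
  have h4 : ∀ E : ℝ, ‖H (((y + v : ℝ) : ℂ) * I)‖ ≤ g * Real.exp E →
      E + 2 * C * |v| - v ^ 2 / (4 * μ) ≤
        100 * C ^ 2 - 3 / 100 * (ρ ^ 2 * (μ * L ^ 2)) - v ^ 2 / (16 * μ) →
      ‖H (((y + v : ℝ) : ℂ) * I)‖ * Real.exp (2 * ω * v) * Real.exp (-v ^ 2 / (4 * μ)) ≤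
        g * Real.exp (100 * C ^ 2 - 3 / 100 * (ρ ^ 2 * (μ * L ^ 2))) *
          Real.exp (-(v ^ 2 / (16 * μ))) := by
    intro E hE hle
    calc ‖H (((y + v : ℝ) : ℂ) * I)‖ * Real.exp (2 * ω * v) * Real.exp (-v ^ 2 / (4 * μ))
        ≤ (g * Real.exp E) * Real.exp (2 * C * |v|) * Real.exp (-v ^ 2 / (4 * μ)) := by
          apply mul_le_mul_of_nonneg_right _ (Real.exp_pos _).le
          exact mul_le_mul hE h3 (Real.exp_pos _).le (by positivity)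
      _ = g * Real.exp (E + 2 * C * |v| - v ^ 2 / (4 * μ)) := by
          rw [mul_assoc, mul_assoc, ← Real.exp_add, ← Real.exp_add]
          congr 2
          ring
      _ ≤ g * Real.exp (100 * C ^ 2 - 3 / 100 * (ρ ^ 2 * (μ * L ^ 2)) - v ^ 2 / (16 * μ)) :=
          mul_le_mul_of_nonneg_left (Real.exp_le_exp.2 hle) hg.le
      _ = _ := by
          rw [mul_assoc, ← Real.exp_add]
          congr 2
  by_cases hv : |v| ≤ ρ / 2 * (μ * L)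
  · refine h4 (-(ρ ^ 2 * (μ * L ^ 2))) (h1 _ ?_).le (expo_near hμ hμ1)
    have h5 : ((y + v : ℝ) : ℂ) * I - (t : ℂ) * I = ((y + v - t : ℝ) : ℂ) * I := by
      push_cast
      ring
    rw [h5, norm_mul, norm_I, mul_one, norm_real, Real.norm_eq_abs]
    have h6 : y + v - t = (y - t) + v := by ring
    rw [h6]
    exact (abs_add_le _ _).trans (by linarith)
  · refine h4 _ (h2 (y + v)) ?_
    exact expo_far hμ hμ1 hρ hρ4 hL hK hδ hy (not_le.1 hv).le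

/-- growth of the exponential -/
theorem growth {L : ℝ} (hL : 300 ≤ L) : 4 * L < Real.exp (11 / 64 * L) := by
  have h1 := Real.quadratic_le_exp_of_nonneg (x := 11 / 64 * L) (by linarith)
  nlinarith

/-- the remainder is small -/
theorem remainder {T μ ρ Z : ℝ} (hT : Real.exp 300 ≤ T) (hμ : 0 < μ) (hρ : 0 < ρ)
    (hρ4 : ρ ≤ 1 / 4) (hA : 1 ≤ μ * Real.log T ^ 2) (hδ : μ * Real.log T ≤ 1)
    (hZ : T ^ (-(1 / 16 : ℝ)) ≤ Z) :
    T ^ (-(1 / 4 : ℝ)) < 1 / 4 * (Real.sqrt μ * Real.exp (-(ρ ^ 2 / 64 * (μ * Real.log T ^ 2))) * Z) := by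
  have hT0 : 0 < T := (Real.exp_pos _).trans_le hT
  have hL : 300 ≤ Real.log T := (Real.le_log_iff_exp_le hT0).2 hT
  have hLp : 0 < Real.log T := by linarith
  have hs : 1 / Real.log T ≤ Real.sqrt μ := by
    rw [div_le_iff₀ hLp]
    have h1 : (1 : ℝ) = Real.sqrt 1 := Real.sqrt_one.symm
    rw [← Real.sqrt_sq hLp.le, ← Real.sqrt_mul hμ.le]
    rw [h1]
    exact Real.sqrt_le_sqrt (by simpa using hA)
  have he : T ^ (-(1 / 64 : ℝ)) ≤ Real.exp (-(ρ ^ 2 / 64 * (μ * Real.log T ^ 2))) := by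
    rw [Real.rpow_def_of_pos hT0]
    apply Real.exp_le_exp.2
    have h2 : μ * Real.log T ^ 2 ≤ Real.log T := by
      calc μ * Real.log T ^ 2 = (μ * Real.log T) * Real.log T := by ring
        _ ≤ 1 * Real.log T := mul_le_mul_of_nonneg_right hδ hLp.le
        _ = _ := one_mul _
    have h3 : ρ ^ 2 ≤ 1 := by nlinarith
    have h4 : ρ ^ 2 / 64 * (μ * Real.log T ^ 2) ≤ 1 / 64 * Real.log T :=
      mul_le_mul (by linarith) h2 (by positivity) (by norm_num)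
    linarith
  have h5 : 1 / Real.log T * T ^ (-(1 / 64 : ℝ)) * T ^ (-(1 / 16 : ℝ)) ≤
      Real.sqrt μ * Real.exp (-(ρ ^ 2 / 64 * (μ * Real.log T ^ 2))) * Z := by
    apply mul_le_mul _ hZ (by positivity) (by positivity)
    exact mul_le_mul hs he (by positivity) (by positivity)
  have h6 : T ^ (-(1 / 4 : ℝ)) < 1 / 4 * (1 / Real.log T * T ^ (-(1 / 64 : ℝ)) *
      T ^ (-(1 / 16 : ℝ))) := by
    have h7 : T ^ (-(1 / 64 : ℝ)) * T ^ (-(1 / 16 : ℝ)) = T ^ (-(1 / 4 : ℝ)) *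
        Real.exp (11 / 64 * Real.log T) := by
      rw [← Real.rpow_add hT0, Real.rpow_def_of_pos hT0, Real.rpow_def_of_pos hT0, ← Real.exp_add]
      congr 1
      ring
    rw [mul_assoc (1 / Real.log T), h7]
    have h8 : 0 < T ^ (-(1 / 4 : ℝ)) := Real.rpow_pos_of_pos hT0 _
    have h9 := growth hL
    have h10 : 1 / 4 * (1 / Real.log T * (T ^ (-(1 / 4 : ℝ)) * Real.exp (11 / 64 * Real.log T))) =
        T ^ (-(1 / 4 : ℝ)) * (Real.exp (11 / 64 * Real.log T) / (4 * Real.log T)) := by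
      field_simp
    rw [h10]
    have h11 : 1 < Real.exp (11 / 64 * Real.log T) / (4 * Real.log T) := by
      rw [lt_div_iff₀ (by positivity), one_mul]
      exact h9
    nlinarith
  exact h6.trans_le (mul_le_mul_of_nonneg_left h5 (by norm_num))

/-- the main term is small -/
theorem main_small {C ρ A : ℝ} (hC : 0 < C) (hρ : 0 < ρ) (hA : 1000 * (1 + C) / ρ ^ 2 ≤ A) :
    C * Real.exp (-(ρ ^ 2 / 50 * A)) ≤ 1 / 4 * Real.exp (-(ρ ^ 2 / 64 * A)) := by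
  have h1 : 1000 * (1 + C) ≤ ρ ^ 2 * A := by
    rw [div_le_iff₀ (by positivity)] at hA
    linarith
  have h2 : Real.exp (-(ρ ^ 2 / 50 * A)) =
      Real.exp (-(ρ ^ 2 / 64 * A)) * Real.exp (-(7 / 1600 * (ρ ^ 2 * A))) := by
    rw [← Real.exp_add]
    congr 1
    ring
  have h3 : 4 * C * Real.exp (-(7 / 1600 * (ρ ^ 2 * A))) ≤ 1 := by
    have h4 : 4 * C ≤ Real.exp (7 / 1600 * (ρ ^ 2 * A)) := by
      have h5 := Real.add_one_le_exp (7 / 1600 * (ρ ^ 2 * A))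
      linarith
    rw [Real.exp_neg]
    rw [← div_eq_mul_inv, div_le_one (Real.exp_pos _)]
    exact h4
  rw [h2]
  have h6 := Real.exp_pos (-(ρ ^ 2 / 64 * A))
  nlinarith

end Pool.Agent.H974.HD
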