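import Pool.Agent.H466.HD.SB
import Pool.Agent.H974.HD.HB0

/-!
# The backward heat flow is not small near most points
-/

set_option autoImplicit false

namespace Pool.Agent.H974.HD

open Complex MeasureTheory Set Filter Topology
open Pool.Agent.H466.HF Pool.Agent.H466.LD Pool.Agent.H466.HP Pool.Agent.H466.HN
open Pool.Agent.H466.HD

/-- combination of the constants -/
theorem comb {C ρ A s g x J : ℝ} (hA : 0 ≤ A) (hs : 0 ≤ s) (hg : 0 ≤ g)
    (hx : x ≤ 9 * (ρ / 40) ^ 2 * A + 18 * C ^ 2)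
    (hJ : J ≤ g * Real.exp (100 * C ^ 2 - 3 / 100 * (ρ ^ 2 * A)) * (4 * Real.sqrt Real.pi * s)) :
    2 * Real.exp x * J ≤
      8 * Real.sqrt Real.pi * Real.exp (118 * C ^ 2) * s * g * Real.exp (-(ρ ^ 2 / 50 * A)) := by
  have h1 : 2 * Real.exp x * J ≤ 2 * Real.exp (9 * (ρ / 40) ^ 2 * A + 18 * C ^ 2) *
      (g * Real.exp (100 * C ^ 2 - 3 / 100 * (ρ ^ 2 * A)) * (4 * Real.sqrt Real.pi * s)) :=
    (mul_le_mul_of_nonneg_left hJ (by positivity)).trans
      (mul_le_mul_of_nonneg_right (mul_le_mul_of_nonneg_left (Real.exp_le_exp.2 hx) (by norm_num))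
        (by positivity))
  refine h1.trans ?_
  have h2 : 2 * Real.exp (9 * (ρ / 40) ^ 2 * A + 18 * C ^ 2) *
      (g * Real.exp (100 * C ^ 2 - 3 / 100 * (ρ ^ 2 * A)) * (4 * Real.sqrt Real.pi * s)) =
      8 * Real.sqrt Real.pi * s * g * (Real.exp (9 * (ρ / 40) ^ 2 * A + 18 * C ^ 2) *
        Real.exp (100 * C ^ 2 - 3 / 100 * (ρ ^ 2 * A))) := by ring
  have h3 : 8 * Real.sqrt Real.pi * Real.exp (118 * C ^ 2) * s * g *
      Real.exp (-(ρ ^ 2 / 50 * A)) = 8 * Real.sqrt Real.pi * s * g *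
        (Real.exp (118 * C ^ 2) * Real.exp (-(ρ ^ 2 / 50 * A))) := by ring
  rw [h2, h3, ← Real.exp_add, ← Real.exp_add]
  apply mul_le_mul_of_nonneg_left _ (by positivity)
  apply Real.exp_le_exp.2
  have h4 : 0 ≤ ρ ^ 2 * A := by positivity
  nlinarith

/-- the contradiction -/
theorem fin_step {G W Z g s B Cr e50 e64 I0 q : ℝ} (hG : 0 ≤ G) (hg : 0 < g) (hs : 0 ≤ s)
    (hZ : 0 ≤ Z) (hB : 0 ≤ B) (he : 0 ≤ e50) (h1 : G * W ≤ I0 + G * q)
    (h2 : I0 ≤ B * s * g * e50) (h3 : g ≤ Cr * G * Z) (h4 : B * Cr * e50 ≤ 1 / 4 * e64)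
    (h5 : q < 1 / 4 * (s * e64 * Z)) (he' : 0 ≤ e64) : W < s * e64 * Z := by
  have hG0 : 0 < G := by
    rcases hG.lt_or_eq with h | h
    · exact h
    · rw [← h, mul_zero, zero_mul] at h3
      exact absurd hg (not_lt.2 h3)
  have h6 : I0 ≤ G * (1 / 4 * (s * e64 * Z)) := by
    calc I0 ≤ B * s * g * e50 := h2
      _ = (B * s * e50) * g := by ring
      _ ≤ (B * s * e50) * (Cr * G * Z) := mul_le_mul_of_nonneg_left h3 (by positivity)
      _ = (B * Cr * e50) * (s * Z * G) := by ring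
      _ ≤ (1 / 4 * e64) * (s * Z * G) := mul_le_mul_of_nonneg_right h4 (by positivity)
      _ = _ := by ring
  have h7 : G * W < G * (s * e64 * Z) := by
    have h8 : G * q < G * (1 / 4 * (s * e64 * Z)) := mul_lt_mul_of_pos_left h5 hG0
    have h9 : 0 ≤ G * (s * e64 * Z) := by positivity
    nlinarith
  exact lt_of_mul_lt_mul_left h7 hG

theorem hb (h1 : S_NT) (h2 : S_FB) (h3 : S_UH2) (h4 : S_GB) (h5 : S_GR) : S_HB := by
  intro ρ ε0 hρ hρ4 hε0
  obtain ⟨A0n, δn, T0n, hA0n, hδn, hT0n, hn⟩ := h1 (ρ / 2) (ρ / 40) (ρ ^ 2 / 64) ε0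
    (by positivity) (by positivity) (by linarith) (by positivity) hε0
  obtain ⟨δ2, Kc, hδ2, hKc, hu⟩ := h3
  obtain ⟨κ0u, hκ0u, hu⟩ := hu (ρ ^ 2 / 1000) (by positivity)
  obtain ⟨Cr, κ0r, hCr, hκ0r, hr⟩ := h5
  obtain ⟨Cg, T0g, hCg, hT0g, hg⟩ := h4
  refine ⟨min κ0u κ0r, lt_min hκ0u hκ0r, ?_⟩
  intro κ hκ hκle A1 hA1
  obtain ⟨A0u, T0u, hA0u, hT0u, hu⟩ := hu κ hκ (hκle.trans (min_le_left _ _)) A1 hA1
  obtain ⟨T0r, hT0r, hr⟩ := hr κ hκ (hκle.trans (min_le_right _ _)) A1 hA1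
  have hB : 0 < 8 * Real.sqrt Real.pi * Real.exp (118 * Cg ^ 2) := by
    have := Real.sqrt_pos.2 Real.pi_pos
    positivity
  obtain ⟨B, hBdef⟩ : ∃ B : ℝ, B = 8 * Real.sqrt Real.pi * Real.exp (118 * Cg ^ 2) := ⟨_, rfl⟩
  rw [← hBdef] at hB
  refine ⟨max (max A0n A0u) (max A1 (1000 * (1 + B * Cr) / ρ ^ 2)),
    min (min δn δ2) (min (1 / 2) (1 / (400 * Kc))),
    max (max T0n T0u) (max (max T0r T0g) (Real.exp 300)), ?_, ?_, ?_, ?_⟩
  · exact hA1.trans ((le_max_left _ _).trans (le_max_right _ _))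
  · exact lt_min (lt_min hδn hδ2) (lt_min (by norm_num) (by positivity))
  · exact hT0n.trans ((le_max_left _ _).trans (le_max_left _ _))
  intro T μ hT hμ hA hδ
  have hTn : T0n ≤ T := ((le_max_left _ _).trans (le_max_left _ _)).trans hT
  have hTu : T0u ≤ T := ((le_max_right _ _).trans (le_max_left _ _)).trans hT
  have hTr : T0r ≤ T :=
    ((le_max_left _ _).trans ((le_max_left _ _).trans (le_max_right _ _))).trans hT
  have hTg : T0g ≤ T :=
    ((le_max_right _ _).trans ((le_max_left _ _).trans (le_max_right _ _))).trans hT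
  have hTe : Real.exp 300 ≤ T := ((le_max_right _ _).trans (le_max_right _ _)).trans hT
  have hAn : A0n ≤ μ * Real.log T ^ 2 := ((le_max_left _ _).trans (le_max_left _ _)).trans hA
  have hAu : A0u ≤ μ * Real.log T ^ 2 := ((le_max_right _ _).trans (le_max_left _ _)).trans hA
  have hAr : A1 ≤ μ * Real.log T ^ 2 := ((le_max_left _ _).trans (le_max_right _ _)).trans hA
  have hAc : 1000 * (1 + B * Cr) / ρ ^ 2 ≤ μ * Real.log T ^ 2 :=
    ((le_max_right _ _).trans (le_max_right _ _)).trans hA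
  have hδn' : μ * Real.log T ≤ δn := hδ.trans ((min_le_left _ _).trans (min_le_left _ _))
  have hδu : μ * Real.log T ≤ δ2 := hδ.trans ((min_le_left _ _).trans (min_le_right _ _))
  have hδh : μ * Real.log T ≤ 1 / 2 := hδ.trans ((min_le_right _ _).trans (min_le_left _ _))
  have hδk : μ * Real.log T ≤ 1 / (400 * Kc) :=
    hδ.trans ((min_le_right _ _).trans (min_le_right _ _))
  have hT0 : 0 < T := (Real.exp_pos _).trans_le hTe
  have hT10 : 10 ≤ T := hT0n.trans hTn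
  have hL : 300 ≤ Real.log T := (Real.le_log_iff_exp_le hT0).2 hTe
  have hLp : 0 < Real.log T := by linarith
  have hμ1 : μ ≤ 1 := by nlinarith
  have hΔ0 : 0 < μ * Real.log T := mul_pos hμ hLp
  have hK4 : 400 * Kc * (μ * Real.log T) ≤ 1 := by
    rw [le_div_iff₀ (by positivity)] at hδk
    linarith
  refine (measure_mono ?_).trans (hn T μ hTn hμ hAn hδn')
  rintro t ⟨ht, hRg, hsmall⟩
  refine ⟨ht, ?_⟩
  intro y u hy hu1 hu2
  have hy1 : |y - t| ≤ 1 := by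
    refine hy.trans ?_
    nlinarith
  have hy2 := abs_le.1 hy1
  obtain ⟨ω, hω1, hω2, hω3⟩ := hg T y μ u hTg (by linarith [ht.1, hy2.1]) (by linarith [ht.2, hy2.2])
    hμ hμ1 (by nlinarith) (by nlinarith)
  obtain ⟨hG0, hG1, hZ⟩ := hr T t μ hTr ht.1 ht.2 hRg hμ hAr hδh
  have hG2 := hG1 y hy1
  have hFB := h2 μ hμ y ω
  have hJ := J_bound (C := Cg) (Kc := Kc) (ρ := ρ) (L := Real.log T) (t := t) (g := Gm T t μ)
    (ω := ω.im) (LL gk (-μ)) hμ hμ1 hρ hρ4 hLp hKc hK4 hy hω2 hG0 hsmall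
    (hu T t μ hTu ht.1 ht.2 hRg hμ hAu hδu)
  have hω : |ω.re| ≤ 2 * (ρ / 40) * Real.log T + Cg := by
    have h6 := abs_le.1 hω1
    rw [abs_le]
    have h7 : 0 ≤ ρ / 40 * Real.log T := by positivity
    constructor <;> nlinarith [h6.1, h6.2]
  have hfr := freq (ε := ρ / 40) (L := Real.log T) hμ hμ1 hω
  have hA0 : 0 ≤ μ * Real.log T ^ 2 := by positivity
  have hcomb := comb hA0 (Real.sqrt_nonneg μ) hG0.le hfr hJ
  rw [← hBdef] at hcomb
  exact fin_step (norm_nonneg _) hG0 (Real.sqrt_nonneg _) (norm_nonneg _) hB.le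
    (Real.exp_pos _).le hω3 (hFB.trans hcomb) hG2 (main_small (mul_pos hB hCr) hρ hAc)
    (remainder hTe hμ hρ hρ4 (hA1.trans hAr) (by linarith) hZ) (Real.exp_pos _).le

end Pool.Agent.H974.HD
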